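import Pool.Agent.L0h78.QFam
import Pool.Agent.L0h78.QNot

set_option autoImplicit false

/-!
# A principal cone which contains every quasi-rational language and is smaller than `Alg`

There is an algebraic language `L` which is not a generator of `Alg` although every quasi-rational
(non-expansive) language is the image of `L` under a rational transduction.

The words of `L` are nested words with unary labels: on the spine of a nested word there are heavy
brackets of two types, which keep the label, and light brackets, inside of which the label `2 j + 1`
becomes `j`. All the words in which two neighbouring labels do not fit are added to `L`. If the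
labels are bounded then the nesting depth of the light brackets is bounded, and the nested words of
bounded light depth generate all iterated substitutions of linear languages. On the other hand an
automaton with `n` states which accepts a word of `L` accepts one of length `n ^ O(log n)`, because
it either accepts a short word with a pair of labels which do not fit, or all the labels of the
words which it accepts are less than `n`, and the light depth is at most `log n`.
-/

namespace Pool.Agent.Results.MP_2d18ab_lc.SmallerPrincipalCone

/-- A family of languages over finite alphabets: `F X L` says that the language `L` over the finite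
alphabet `X` belongs to the family. -/
abbrev Family := ∀ (X : Type) [Finite X], Language X → Prop

/-- `L` is a linear language: it is generated by a context-free grammar in which every right-hand
side contains at most one nonterminal. -/
def Linear {X : Type} (L : Language X) : Prop :=
  ∃ g : ContextFreeGrammar.{0} X, g.language = L ∧ ∀ r ∈ g.rules,
    (∃ u : List X, r.output = u.map Symbol.terminal) ∨
    (∃ (u : List X) (A : g.NT) (v : List X),
      r.output = u.map Symbol.terminal ++ Symbol.nonterminal A :: v.map Symbol.terminal)

/-- The language `σ(L)`: the words which arise from a word `x_1 ... x_n` of `L` by replacing each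
letter `x_i` by a word of `σ(x_i)`. -/
def subst {X Y : Type} (L : Language X) (σ : X → Language Y) : Language Y :=
  {w | ∃ u ∈ L, w ∈ (u.map σ).prod}

/-- `F` is closed under substitution. -/
def SubstClosed (F : Family) : Prop :=
  ∀ (X Y : Type) [Finite X] [Finite Y] (L : Language X) (σ : X → Language Y),
    F X L → (∀ x, F Y (σ x)) → F Y (subst L σ)

/-- Quasi-rational languages: the members of the smallest family which contains all linear
languages and is closed under substitution. -/
def Qrt (X : Type) [Finite X] (L : Language X) : Prop :=
  ∀ F : Family, (∀ (X : Type) [Finite X] (L : Language X), Linear L → F X L) → SubstClosed F →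
    F X L

/-- `InT L N` says that `N ∈ T(L)`: `N = g (h⁻¹ L ∩ R)` for morphisms `h : Z* → X*`,
`g : Z* → Y*` of free monoids over finite alphabets and a regular language `R` (the image of `L`
under a rational transduction, in Nivat's form). -/
def InT {X Y : Type} (L : Language X) (N : Language Y) : Prop :=
  ∃ (Z : Type) (_ : Fintype Z) (h : Z → List X) (g : Z → List Y) (R : Language Z),
    R.IsRegular ∧ N = {v | ∃ z ∈ R, z.flatMap h ∈ L ∧ z.flatMap g = v}

/-- There is an algebraic language `L` over a finite alphabet such that every quasi-rational
language is in `T(L)` and some algebraic language is not in `T(L)`. -/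
theorem result : ∃ (X : Type) (_ : Finite X) (L : Language X), L.IsContextFree ∧
    (∀ (Y : Type) [Finite Y] (N : Language Y), Qrt Y N → InT L N) ∧
    ∃ (Y : Type) (_ : Finite Y) (N : Language Y), N.IsContextFree ∧ ¬ InT L N := by
  refine ⟨Pool.Agent.L0h78.Q.Sg, inferInstance, Pool.Agent.L0h78.Q.Lang,
    Pool.Agent.L0h78.Q.cf_Lang, ?_, Pool.Agent.L0h78.Q.Y4, inferInstance,
    {w | Pool.Agent.L0h78.Q.Tree w}, Pool.Agent.L0h78.Q.cf_Tree,
    Pool.Agent.L0h78.Q.not_inCone_Tree⟩
  intro Y _ N hN
  refine Pool.Agent.L0h78.Q.inCone_of_Gq (hN (fun X _ L => Pool.Agent.L0h78.Q.Gq X L) ?_ ?_)
  · intro X _ L hL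
    exact Pool.Agent.L0h78.Q.Gq_of_linear hL
  · intro X Y _ _ L σ hL hσ
    exact Pool.Agent.L0h78.Q.Gq_subst hL Y σ hσ

end Pool.Agent.Results.MP_2d18ab_lc.SmallerPrincipalCone
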